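import Pool.Agent.N844.QP.Pencil

/-!
# Character sums for the pencils of quadrics whose discriminant curve is a twist of a curve with
# Jacobian isogenous to the product of two twists of `X_0(49)`
-/

set_option autoImplicit false
set_option linter.unusedSectionVars false

namespace Pool.Agent.N843.BB

open Finset Matrix Polynomial
open Pool.Agent.N844.QP (chi_sq sum_sq sum_lin sum_inv dp dp_eval dp_coeff dp_map count_sym qf qf_smul
  proj_card)
open scoped LinearAlgebra.Projectivization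

section field

variable {k : Type*} [Field k]

/-- the curve `E_m` -/
def cub (m t : k) : k := t ^ 3 - 3 * m * t ^ 2 - 32 * m ^ 2 * t - 64 * m ^ 3

/-- the sextic without its constant factor -/
def gg (w d x : k) : k := (d * x ^ 2 - 1) * (d * x ^ 2 + w ^ 4) * (d * x ^ 2 - w ^ 8)

/-- the nonzero constants -/
structure Ok (w : k) : Prop where
  e : w ^ 2 = w - 2
  h2 : (2 : k) ≠ 0
  h3 : (3 : k) ≠ 0
  h7 : (7 : k) ≠ 0

namespace Ok

variable {w : k} (h : Ok w)
include h

lemma w0 : w ≠ 0 := by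
  rintro rfl
  apply h.h2
  have := h.e
  linear_combination this

lemma w1 : 1 - w ≠ 0 := by
  intro h0
  apply h.h2
  have h1 : w = 1 := by linear_combination -h0
  have := h.e
  rw [h1] at this
  linear_combination this

lemma s7 : 2 * w - 1 ≠ 0 := by
  intro h0
  apply h.h7
  linear_combination -(2 * w - 1) * h0 + 4 * h.e

lemma w4 : w ^ 4 = 2 - 3 * w := by
  linear_combination (w ^ 2 + w - 1) * h.e

lemma w8 : w ^ 8 = -14 - 3 * w := by
  linear_combination (w ^ 4 + (2 - 3 * w)) * h.w4 + 9 * h.e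

lemma c0 : (9 + 3 * w : k) ≠ 0 := by
  have e1 : (9 + 3 * w : k) = 3 * ((1 - w) * (2 * w - 1)) := by linear_combination 6 * h.e
  rw [e1]
  exact mul_ne_zero h.h3 (mul_ne_zero h.w1 h.s7)

lemma d1 : (1 + w ^ 4 : k) ≠ 0 := by
  have e1 : (1 + w ^ 4 : k) = 3 * (1 - w) := by linear_combination h.w4
  rw [e1]
  exact mul_ne_zero h.h3 h.w1

lemma d2 : (1 - w ^ 4 : k) ≠ 0 := by
  have e1 : (1 - w ^ 4 : k) = (1 - w) ^ 4 := by
    have e2 : (1 - w) ^ 2 = (1 - w) - 2 := by linear_combination h.e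
    linear_combination -h.w4 - ((1 - w) ^ 2 + (1 - w) - 1) * e2
  rw [e1]
  exact pow_ne_zero _ h.w1

end Ok

variable [Fintype k] [DecidableEq k]

/-- the character sum of the elliptic curve -/
def SK (m : k) : ℤ := ∑ t : k, quadraticChar k (cub m t)

lemma SK_sq {c : k} (hc : c ≠ 0) (m : k) : SK (c ^ 2 * m) = SK m := by
  unfold SK
  have hc2 : c ^ 2 ≠ 0 := pow_ne_zero 2 hc
  rw [← sum_lin (fun t => quadraticChar k (cub (c ^ 2 * m) t)) hc2 0]
  refine Finset.sum_congr rfl fun t _ => ?_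
  rw [← chi_sq (pow_ne_zero 3 hc) (cub m t)]
  congr 1
  unfold cub
  ring

lemma S1 {w : k} (h : Ok w) {m : k} (hm : m ≠ 0) :
    ∑ u : k, quadraticChar k ((9 + 3 * w) * m * ((u - 1) * (u + w ^ 4) * (u - w ^ 8))) = SK m := by
  have h1 := h.w1
  have h7 := h.s7
  have h3 := h.h3
  have ha : (m * (2 * w - 1) / (3 * (1 - w)) : k) ≠ 0 :=
    div_ne_zero (mul_ne_zero hm h7) (mul_ne_zero h3 h1)
  unfold SK
  rw [← sum_lin (fun t => quadraticChar k (cub m t)) ha
    (m * (-2 - w) + m * (2 * w - 1) / (3 * (1 - w)) * w ^ 4)]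
  refine Finset.sum_congr rfl fun u _ => ?_
  have h9 : (9 : k) ≠ 0 := by
    have : (9 : k) = 3 ^ 2 := by norm_num
    rw [this]; exact pow_ne_zero _ h3
  have hs : (9 * (1 - w) ^ 2 / ((2 * w - 1) * m) : k) ≠ 0 :=
    div_ne_zero (mul_ne_zero h9 (pow_ne_zero _ h1)) (mul_ne_zero h7 hm)
  rw [← chi_sq hs (cub m _)]
  congr 1
  have hfac : ∀ t : k, cub m t = (t - 8 * m) * (t - (w - 3) * m) * (t - (-2 - w) * m) := by
    intro t
    unfold cub
    linear_combination (m ^ 2 * (t - 8 * m)) * h.e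
  rw [hfac, h.w8, h.w4]
  have hA : m * (2 * w - 1) / (3 * (1 - w)) * u + (m * (-2 - w) +
      m * (2 * w - 1) / (3 * (1 - w)) * (2 - 3 * w)) - 8 * m =
      m * (2 * w - 1) / (3 * (1 - w)) * (u - (-14 - 3 * w)) := by
    field_simp
    linear_combination (-9 : k) * h.e
  have hB : m * (2 * w - 1) / (3 * (1 - w)) * u + (m * (-2 - w) +
      m * (2 * w - 1) / (3 * (1 - w)) * (2 - 3 * w)) - (w - 3) * m =
      m * (2 * w - 1) / (3 * (1 - w)) * (u - 1) := by
    field_simp
    ring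
  have hC : m * (2 * w - 1) / (3 * (1 - w)) * u + (m * (-2 - w) +
      m * (2 * w - 1) / (3 * (1 - w)) * (2 - 3 * w)) - (-2 - w) * m =
      m * (2 * w - 1) / (3 * (1 - w)) * (u + (2 - 3 * w)) := by
    ring
  rw [hA, hB, hC]
  have e1 : (9 + 3 * w : k) = 3 * ((1 - w) * (2 * w - 1)) := by linear_combination 6 * h.e
  rw [e1]
  field_simp
  ring

lemma S2 {w : k} (h : Ok w) {m : k} (hm : m ≠ 0) :
    ∑ v : k, quadraticChar k ((9 + 3 * w) * m * ((1 - v) * (1 + w ^ 4 * v) * (1 - w ^ 8 * v))) =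
      SK m := by
  have hw := h.w0
  rw [← S1 h hm, ← sum_lin (fun u => quadraticChar k ((9 + 3 * w) * m *
    ((u - 1) * (u + w ^ 4) * (u - w ^ 8)))) (pow_ne_zero 8 hw) 0]
  refine Finset.sum_congr rfl fun v _ => ?_
  rw [← chi_sq (pow_ne_zero 6 hw) ((9 + 3 * w) * m * ((1 - v) * (1 + w ^ 4 * v) *
    (1 - w ^ 8 * v)))]
  congr 1
  ring

/-- the sum over the pencil -/
theorem sum_gg (hk : ringChar k ≠ 2) {w : k} (h : Ok w) {m d : k} (hm : m ≠ 0) (hd : d ≠ 0) :
    ∑ x : k, quadraticChar k ((9 + 3 * w) * m * gg w d x) +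
      quadraticChar k ((9 + 3 * w) * (m * d)) = SK m + SK (m * d) := by
  have s1 := S1 h hm
  have s2 := S2 h (mul_ne_zero hm hd)
  generalize (9 + 3 * w : k) = c at s1 s2 ⊢
  have e1 : ∑ x : k, quadraticChar k (c * m * gg w d x) =
      ∑ u : k, quadraticChar k (c * m * ((u - 1) * (u + w ^ 4) * (u - w ^ 8))) +
      ∑ u : k, quadraticChar k (u * (c * (m * d) *
        ((u - 1) * (u + w ^ 4) * (u - w ^ 8)))) := by
    have h1 := sum_sq hk (fun u : k => quadraticChar k (c * m *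
      ((d * u - 1) * (d * u + w ^ 4) * (d * u - w ^ 8))))
    unfold gg
    rw [h1]
    simp_rw [add_mul, one_mul, Finset.sum_add_distrib]
    rw [add_comm]
    congr 1
    · rw [← sum_lin (fun u => quadraticChar k (c * m *
        ((u - 1) * (u + w ^ 4) * (u - w ^ 8)))) hd 0]
      refine Finset.sum_congr rfl fun u _ => ?_
      congr 1
      ring
    · rw [← sum_lin (fun u => quadraticChar k (u * (c * (m * d) *
        ((u - 1) * (u + w ^ 4) * (u - w ^ 8))))) hd 0]
      refine Finset.sum_congr rfl fun u _ => ?_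
      rw [Int.cast_id, ← map_mul (quadraticChar k) u, ← chi_sq hd (u * _)]
      congr 1
      ring
  have hmd : m * d ≠ 0 := mul_ne_zero hm hd
  have e2 : ∑ u : k, quadraticChar k (u * (c * (m * d) *
        ((u - 1) * (u + w ^ 4) * (u - w ^ 8)))) =
      ∑ v : k, quadraticChar k (c * (m * d) *
        ((1 - v) * (1 + w ^ 4 * v) * (1 - w ^ 8 * v))) -
        quadraticChar k (c * (m * d)) := by
    rw [sum_inv _ (by simp)]
    rw [← Finset.add_sum_erase univ (fun v : k => quadraticChar k (c * (m * d) *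
        ((1 - v) * (1 + w ^ 4 * v) * (1 - w ^ 8 * v)))) (mem_univ 0),
      ← Finset.add_sum_erase univ _ (mem_univ (0 : k))]
    rw [if_pos rfl, zero_add]
    have e3 : (c * (m * d) * ((1 - 0) * (1 + w ^ 4 * 0) * (1 - w ^ 8 * 0)) : k) =
      c * (m * d) := by ring
    rw [e3, add_sub_cancel_left]
    refine Finset.sum_congr rfl fun v hv => ?_
    have hv0 : v ≠ 0 := Finset.ne_of_mem_erase hv
    rw [if_neg hv0, ← chi_sq (pow_ne_zero 2 hv0)]
    congr 1
    field_simp
  rw [e1, e2, s1, s2]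
  ring

end field

/-! ### the pencils -/

/-- the discriminant polynomial -/
noncomputable def dsc {R : Type*} [CommRing R] (w c d : R) : R[X] :=
  C (-c) * ((C d * X ^ 2 - C 1) * (C d * X ^ 2 + C (w ^ 4)) * (C d * X ^ 2 - C (w ^ 8)))

lemma dsc_eval {R : Type*} [CommRing R] (w c d x : R) : (dsc w c d).eval x =
    -c * ((d * x ^ 2 - 1) * (d * x ^ 2 + w ^ 4) * (d * x ^ 2 - w ^ 8)) := by
  unfold dsc
  simp only [eval_add, eval_mul, eval_sub, eval_pow, eval_X, eval_C]

lemma dsc_coeff {R : Type*} [CommRing R] (w c d : R) : (dsc w c d).coeff 6 = -c * d ^ 3 := by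
  have e : dsc w c d = C (-c * d ^ 3) * X ^ 6 + C (-c * (d ^ 2 * (w ^ 4 - w ^ 8 - 1))) * X ^ 4 +
      C (-c * (d * (w ^ 8 - w ^ 4 - w ^ 12))) * X ^ 2 + C (-c * w ^ 12) := by
    unfold dsc
    simp only [C_mul, C_pow, C_neg, C_sub, C_1]
    ring
  rw [e]
  simp only [coeff_add, coeff_C_mul, coeff_X_pow, coeff_C]
  norm_num

lemma dsc_map {R S : Type*} [CommRing R] [CommRing S] (f : R →+* S) (w c d : R) :
    (dsc w c d).map f = dsc (f w) (f c) (f d) := by
  unfold dsc
  simp only [Polynomial.map_mul, Polynomial.map_sub, Polynomial.map_add, Polynomial.map_pow,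
    Polynomial.map_neg, Polynomial.map_one, map_C, map_X, map_neg, map_one, map_pow]

/-- the roots are simple -/
lemma dsc_simple {k : Type*} [Field k] {w : k} (h : Ok w) {c d : k} (hc : c ≠ 0) (hd : d ≠ 0) (x : k)
    (hf : (dsc w c d).eval x = 0) : (dsc w c d).derivative.eval x ≠ 0 := by
  have e : (dsc w c d).derivative.eval x = -c * (2 * d * x) *
      ((d * x ^ 2 + w ^ 4) * (d * x ^ 2 - w ^ 8) + (d * x ^ 2 - 1) * (d * x ^ 2 - w ^ 8) +
        (d * x ^ 2 - 1) * (d * x ^ 2 + w ^ 4)) := by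
    unfold dsc
    simp only [derivative_mul, derivative_C, derivative_sub, derivative_add, derivative_pow,
      derivative_X, eval_add, eval_mul, eval_sub, eval_pow, eval_X, eval_C, zero_mul,
      zero_add, mul_one, add_zero, sub_zero, map_natCast, eval_natCast]
    push_cast
    ring
  rw [dsc_eval] at hf
  have h0 : (d * x ^ 2 - 1) * (d * x ^ 2 + w ^ 4) * (d * x ^ 2 - w ^ 8) = 0 :=
    (mul_eq_zero.1 hf).resolve_left (neg_ne_zero.2 hc)
  have hw := h.w0
  have hx : x ≠ 0 := by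
    rintro rfl
    have h1 : w ^ 12 = 0 := by linear_combination h0
    exact pow_ne_zero 12 hw h1
  rw [e]
  refine mul_ne_zero (mul_ne_zero (neg_ne_zero.2 hc) (mul_ne_zero (mul_ne_zero h.h2 hd) hx)) ?_
  have n1 : (1 - w ^ 8 : k) ≠ 0 := by
    have : (1 - w ^ 8 : k) = (1 + w ^ 4) * (1 - w ^ 4) := by ring
    rw [this]
    exact mul_ne_zero h.d1 h.d2
  have n2 : (w ^ 8 + w ^ 4 : k) ≠ 0 := by
    have : (w ^ 8 + w ^ 4 : k) = w ^ 4 * (1 + w ^ 4) := by ring
    rw [this]
    exact mul_ne_zero (pow_ne_zero _ hw) h.d1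
  rcases mul_eq_zero.1 h0 with h2 | h2
  · rcases mul_eq_zero.1 h2 with h3 | h3
    · have ht : d * x ^ 2 = 1 := by linear_combination h3
      rw [ht]
      intro h4
      exact mul_ne_zero h.d1 n1 (by linear_combination h4)
    · have ht : d * x ^ 2 = -w ^ 4 := by linear_combination h3
      rw [ht]
      intro h4
      exact mul_ne_zero h.d1 n2 (by linear_combination h4)
  · have ht : d * x ^ 2 = w ^ 8 := by linear_combination h2
    rw [ht]
    intro h4
    exact mul_ne_zero n1 n2 (by linear_combination -h4)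

end Pool.Agent.N843.BB
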