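import Pool.Agent.N843.BB.Pen
import Pool.Agent.N843.CK.Co

/-!
# The eigenvalues of Frobenius
-/

set_option autoImplicit false
set_option linter.unusedSectionVars false

namespace Pool.Agent.N843.BB

open Finset Polynomial IsDedekindDomain
open Pool.Agent.N844.QP (chi_sq sum_lin)
open Pool.Agent.R384 (OO om)
open Pool.Agent.H341R2.Sharp (T_eq_sum)
open W165.CE (wei aeval_wei wei_natDegree wei_monic T_luc A_two)
open Pool.Agent.H82R3.EK (luc luc_eq card_points)
open Pool.Agent.N843.K (PsiK quad sym mK)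
open Pool.Agent.N843 (card_map nR_pH)

/-! ### extensions of finite fields -/

section ext

variable {F k : Type} [Field F] [Fintype F] [DecidableEq F] [Field k] [Fintype k] [DecidableEq k]
  [Algebra F k]

lemma SK_wei (hF : ringChar F ≠ 2) (D : F) : SK (algebraMap F k D) =
    Pool.Agent.H341R2.Sharp.T (wei (-35 * D ^ 2) (-98 * D ^ 3)) (Module.finrank F k) := by
  rw [T_eq_sum (E := k) hF]
  unfold SK
  rw [← sum_lin (fun t => quadraticChar k (cub (algebraMap F k D) t)) one_ne_zero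
    (algebraMap F k D)]
  refine Finset.sum_congr rfl fun x _ => ?_
  congr 1
  rw [aeval_wei]
  unfold cub
  simp only [map_mul, map_neg, map_pow, map_ofNat]
  ring

theorem SK_luc (h2 : (2 : F) ≠ 0) (h7 : (7 : F) ≠ 0) {D : F} (hD : D ≠ 0) :
    SK (algebraMap F k D) = - luc (- SK D) (Fintype.card F) (Module.finrank F k) := by
  have hF : ringChar F ≠ 2 := by
    intro h0
    apply h2
    have := ringChar.spec F 2
    rw [h0] at this
    exact_mod_cast this.2 dvd_rfl
  have hd : 4 * (-35 * D ^ 2) ^ 3 + 27 * (-98 * D ^ 3) ^ 2 ≠ (0 : F) := by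
    have e : 4 * (-35 * D ^ 2) ^ 3 + 27 * (-98 * D ^ 3) ^ 2 = (2 : F) ^ 8 * 7 ^ 3 * D ^ 6 := by ring
    rw [e]
    exact mul_ne_zero (mul_ne_zero (pow_ne_zero _ h2) (pow_ne_zero _ h7)) (pow_ne_zero _ hD)
  have h1 := SK_wei (F := F) (k := F) hF D
  rw [Module.finrank_self] at h1
  have h1' : SK D = Pool.Agent.H341R2.Sharp.T (wei (-35 * D ^ 2) (-98 * D ^ 3)) 1 := h1
  have hpos : 0 < Module.finrank F k := Module.finrank_pos
  obtain ⟨n, hn⟩ := Nat.exists_eq_succ_of_ne_zero hpos.ne'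
  rw [SK_wei hF, hn, Nat.succ_eq_add_one, T_luc hF (wei_natDegree _ _) (wei_monic _ _) n,
    A_two hF _ _ hd, ← h1']

end ext

/-! ### the points of the reduction -/

lemma cnt_SK {F : Type} [Field F] [Fintype F] [DecidableEq F] (hF : ringChar F ≠ 2) (D : F) :
    (Nat.card {x : F × F // (mK D).toAffine.Equation x.1 x.2} : ℤ) = Fintype.card F + SK D := by
  have h1 := card_points hF (fun x : F => cub D x)
  have e : Nat.card {x : F × F // (mK D).toAffine.Equation x.1 x.2} =
      Nat.card {x : F × F // x.2 ^ 2 = cub D x.1} := by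
    refine Nat.card_congr (Equiv.subtypeEquivRight fun x => ?_)
    rw [WeierstrassCurve.Affine.equation_iff]
    unfold mK cub
    constructor
    · intro h
      linear_combination h
    · intro h
      linear_combination h
  rw [e]
  exact h1

/-! ### the absolute value of the Hecke character -/

lemma conj_of {z : ℂ} (hz : z ^ 2 = z - 2) : (starRingEnd ℂ) z = 1 - z := by
  rcases Pool.Agent.N843.conj_z hz with h | h
  · rw [h, Pool.Agent.N843.al_cj]
  · rw [h, Complex.conj_conj, Pool.Agent.N843.al_cj]; ring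

lemma norm_emb {z : ℂ} (hz : z ^ 2 = z - 2) (x : OO) :
    ‖(x.re : ℂ) + (x.im : ℂ) * z‖ ^ 2 = ((x.re ^ 2 + x.re * x.im + 2 * x.im ^ 2 : ℤ) : ℝ) := by
  have h1 : ((‖(x.re : ℂ) + (x.im : ℂ) * z‖ ^ 2 : ℝ) : ℂ) =
      ((x.re : ℂ) + (x.im : ℂ) * z) * (starRingEnd ℂ) ((x.re : ℂ) + (x.im : ℂ) * z) := by
    rw [Complex.mul_conj, Complex.normSq_eq_norm_sq]
  rw [map_add, map_mul, map_intCast (starRingEnd ℂ), map_intCast (starRingEnd ℂ), conj_of hz] at h1
  have h2 : ((‖(x.re : ℂ) + (x.im : ℂ) * z‖ ^ 2 : ℝ) : ℂ) =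
      (((x.re ^ 2 + x.re * x.im + 2 * x.im ^ 2 : ℤ) : ℝ) : ℂ) := by
    rw [h1]
    push_cast
    linear_combination -(x.im : ℂ) ^ 2 * hz
  exact_mod_cast h2

lemma int_abs_le {n : ℤ} (h : n = 0 ∨ n = 1 ∨ n = -1) : ‖(n : ℂ)‖ ≤ 1 := by
  rcases h with rfl | rfl | rfl <;> simp

lemma sym_cases (D x : OO) : sym D x = 0 ∨ sym D x = 1 ∨ sym D x = -1 := by
  unfold sym
  split_ifs
  · left; rfl
  · right
    exact neg_one_pow_eq_or ℤ _

lemma quad_one (D x : OO) : quad 1 D x = sym D x := by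
  unfold quad
  rw [if_neg (by norm_num), one_mul]

lemma exists_gen (P : HeightOneSpectrum OO) : ∃ g : OO, P.asIdeal = Ideal.span {g} ∧ Prime g := by
  obtain ⟨g, hg⟩ : ∃ g : OO, P.asIdeal = Ideal.span {g} := by
    obtain ⟨g, hg⟩ := (IsPrincipalIdealRing.principal P.asIdeal).principal
    exact ⟨g, hg⟩
  refine ⟨g, hg, ?_⟩
  have h1 := P.isPrime
  have h2 := P.ne_bot
  rw [hg] at h1 h2
  rw [Ne, Ideal.span_singleton_eq_bot] at h2
  exact (Ideal.span_singleton_prime h2).1 h1

lemma card_gen (g : OO) : (Nat.card (OO ⧸ Ideal.span {g}) : ℝ) =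
    ((g.re ^ 2 + g.re * g.im + 2 * g.im ^ 2 : ℤ) : ℝ) := by
  have h1 := card_map g
  rw [nR_pH] at h1
  exact_mod_cast h1

lemma repr_om (g : OO) : g = (g.re : OO) + (g.im : OO) * om := by
  ext <;> simp [om]

variable {D : OO} {z : ℂ} {ψ : Ideal OO → ℂ}

lemma psi_le (hψ : PsiK 1 D z ψ) (hz : z ^ 2 = z - 2) (P : HeightOneSpectrum OO) :
    ‖ψ P.asIdeal‖ ^ 2 ≤ (Nat.card (OO ⧸ P.asIdeal) : ℝ) := by
  obtain ⟨g, hg, -⟩ := exists_gen P
  rw [hg, hψ.val, norm_mul, norm_mul, mul_pow, mul_pow, norm_emb hz, card_gen, quad_one]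
  have h1 := int_abs_le (jacobiSym.trichotomy (g.re + 4 * g.im) 7)
  have h2 := int_abs_le (sym_cases D g)
  have h3 : (0 : ℝ) ≤ ((g.re ^ 2 + g.re * g.im + 2 * g.im ^ 2 : ℤ) : ℝ) := by
    have : (0 : ℤ) ≤ g.re ^ 2 + g.re * g.im + 2 * g.im ^ 2 := by
      nlinarith [sq_nonneg (2 * g.re + g.im), sq_nonneg g.im]
    exact_mod_cast this
  have h4 : ‖((jacobiSym (g.re + 4 * g.im) 7 : ℤ) : ℂ)‖ ^ 2 * ‖((sym D g : ℤ) : ℂ)‖ ^ 2 ≤ 1 :=
    mul_le_one₀ (pow_le_one₀ (norm_nonneg _) h1) (by positivity) (pow_le_one₀ (norm_nonneg _) h2)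
  exact mul_le_of_le_one_left h3 h4

lemma psi_eq (hψ : PsiK 1 D z ψ) (hz : z ^ 2 = z - 2) (P : HeightOneSpectrum OO)
    (hP : 14 * D ∉ P.asIdeal) : ‖ψ P.asIdeal‖ ^ 2 = (Nat.card (OO ⧸ P.asIdeal) : ℝ) := by
  obtain ⟨g, hg, hpr⟩ := exists_gen P
  have hgD : ¬ g ∣ 14 * D := by
    rw [← Ideal.mem_span_singleton, ← hg]
    exact hP
  rw [hg, hψ.val, norm_mul, norm_mul, mul_pow, mul_pow, norm_emb hz, card_gen, quad_one]
  have h1 : jacobiSym (g.re + 4 * g.im) 7 = 1 ∨ jacobiSym (g.re + 4 * g.im) 7 = -1 := by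
    rcases jacobiSym.trichotomy (g.re + 4 * g.im) 7 with h | h | h
    · exfalso
      rw [jacobiSym.eq_zero_iff_not_coprime] at h
      have h2 : (7 : ℤ) ∣ g.re + 4 * g.im := by
        by_contra h3
        apply h
        have h4 : IsCoprime (g.re + 4 * g.im) (7 : ℤ) := by
          have hp : Prime (7 : ℤ) := by norm_num
          exact (hp.coprime_iff_not_dvd.2 h3).symm
        exact Int.isCoprime_iff_gcd_eq_one.1 h4
      obtain ⟨c, hc⟩ := h2
      set s : OO := 2 * om - 1 with hs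
      have hs2 : s * s = -7 := by
        rw [hs]
        linear_combination 4 * om_sq
      have h5 : s ∣ g := by
        have e1 : g = 7 * (c : OO) + (g.im : OO) * (om - 4) := by
          have h6 := congrArg (fun n : ℤ => (n : OO)) hc
          push_cast at h6
          have h7 := repr_om g
          linear_combination h6 + h7
        have e2 : om - 4 = s * om := by
          rw [hs]
          linear_combination -2 * om_sq
        rw [e1, e2]
        exact ⟨-s * c + g.im * om, by linear_combination (c : OO) * hs2⟩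
      obtain ⟨y, hy⟩ := h5
      have h6 : g ∣ s * y := ⟨1, by rw [mul_one, hy]⟩
      rcases hpr.dvd_or_dvd h6 with h7 | h7
      · apply hgD
        have : (14 : OO) * D = s * (-2 * s * D) := by linear_combination 2 * D * hs2
        rw [this]
        exact h7.mul_right _
      · obtain ⟨t, ht⟩ := h7
        have h8 : s * t = 1 := by
          have h9 : g * (s * t) = g * 1 := by
            rw [mul_one]
            calc g * (s * t) = s * (g * t) := by ring
              _ = g := by rw [← ht, ← hy]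
          exact mul_left_cancel₀ hpr.ne_zero h9
        have h10 : (7 : OO) * (-(t * t)) = 1 := by
          linear_combination (s * t + 1) * h8 - t * t * hs2
        have h12 : (7 : ℤ) • (-(t * t)) = (1 : OO) := by
          rw [zsmul_eq_mul]
          exact_mod_cast h10
        have h11 := congrArg QuadraticAlgebra.re h12
        rw [QuadraticAlgebra.re_smul, QuadraticAlgebra.re_one, smul_eq_mul] at h11
        omega
    · exact Or.inl h
    · exact Or.inr h
  have h2 : sym D g = 1 ∨ sym D g = -1 := by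
    unfold sym
    rw [if_neg]
    · exact neg_one_pow_eq_or ℤ _
    · rintro ⟨Q, hQ, hD, hx⟩
      apply hP
      have h3 : P.asIdeal ≤ Q := by
        rw [hg, Ideal.span_singleton_le_iff_mem]
        exact hx
      have h4 : P.asIdeal = Q := P.isMaximal.eq_of_le hQ.ne_top h3
      rw [h4]
      exact Q.mul_mem_left _ hD
  have e1 : ‖((jacobiSym (g.re + 4 * g.im) 7 : ℤ) : ℂ)‖ = 1 := by
    rcases h1 with h | h <;> rw [h] <;> simp
  have e2 : ‖((sym D g : ℤ) : ℂ)‖ = 1 := by
    rcases h2 with h | h <;> rw [h] <;> simp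
  rw [e1, e2]
  ring

end Pool.Agent.N843.BB
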