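import Pool.Agent.N843.BB.Eig

/-!
# The eigenvalues of Frobenius on the third cohomology, and the `L`-function
-/

set_option autoImplicit false
set_option linter.unusedSectionVars false

namespace Pool.Agent.N843.BB

open Finset Polynomial IsDedekindDomain
open Pool.Agent.R384 (OO om)
open Pool.Agent.H82R3.EK (luc luc_eq)
open Pool.Agent.N843.K (PsiK quad sym mK mK_map)
open Pool.Agent.N844.QP (numP)

/-- the norm of a prime -/
noncomputable def nP (P : HeightOneSpectrum OO) : ℕ := Nat.card (OO ⧸ P.asIdeal)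

/-- the reduction modulo `P` -/
noncomputable def rd (P : HeightOneSpectrum OO) (k : Type) [Field k] [Algebra (OO ⧸ P.asIdeal) k] :
    OO →+* k :=
  (algebraMap (OO ⧸ P.asIdeal) k).comp (Ideal.Quotient.mk P.asIdeal)

/-- `ω` are the eigenvalues of Frobenius at `P` on the third cohomology -/
def IsFrob (A B : Matrix (Fin 6) (Fin 6) OO) (P : HeightOneSpectrum OO) (ω : Fin 4 → ℂ) : Prop :=
  (∀ j, ‖ω j‖ = (nP P : ℝ) ^ ((3 : ℝ) / 2)) ∧
    ∀ (k : Type) [Field k] [Fintype k] [Algebra (OO ⧸ P.asIdeal) k] (r : ℕ),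
      Fintype.card k = nP P ^ r →
      (numP (A.map (rd P k)) (B.map (rd P k)) : ℂ) =
        1 + (nP P : ℂ) ^ r + (nP P : ℂ) ^ (2 * r) + (nP P : ℂ) ^ (3 * r) - ∑ j, ω j ^ r

/-- `ψ(P)` and `ψ̄(P)` are the eigenvalues of Frobenius of `E_D` at `P` -/
def HeckeAt (D : OO) (ψ : Ideal OO → ℂ) (P : HeightOneSpectrum OO) : Prop :=
  ((Nat.card {x : (OO ⧸ P.asIdeal) × (OO ⧸ P.asIdeal) //
    ((mK D).map (Ideal.Quotient.mk P.asIdeal)).toAffine.Equation x.1 x.2} : ℕ) : ℂ) =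
    (Nat.card (OO ⧸ P.asIdeal) : ℂ) - (ψ P.asIdeal + (starRingEnd ℂ) (ψ P.asIdeal))

section place

variable (P : HeightOneSpectrum OO)

lemma fin_res : Finite (OO ⧸ P.asIdeal) := by
  obtain ⟨g, hg, hpr⟩ := exists_gen P
  apply Nat.finite_of_card_ne_zero
  rw [hg]
  intro h0
  have h1 := card_gen g
  rw [h0] at h1
  have h2 : g.re ^ 2 + g.re * g.im + 2 * g.im ^ 2 = 0 := by exact_mod_cast h1.symm
  have h3 : g.im = 0 := by nlinarith [sq_nonneg (2 * g.re + g.im), sq_nonneg g.im]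
  have h4 : g.re = 0 := by
    rw [h3] at h2
    nlinarith [sq_nonneg g.re]
  exact hpr.ne_zero (QuadraticAlgebra.ext h4 h3)

lemma two_le_nP : 2 ≤ nP P := by
  have h1 := fin_res P
  have hm : P.asIdeal.IsMaximal := P.isMaximal
  have h2 : Nontrivial (OO ⧸ P.asIdeal) := Ideal.Quotient.nontrivial_iff.2 hm.ne_top
  exact Finite.one_lt_card

end place

/-- the character sum over the extensions of the residue field -/
theorem SK_ext {P : HeightOneSpectrum OO} {D : OO} {ψ : Ideal OO → ℂ} (hP : 14 * D ∉ P.asIdeal)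
    (hE : HeckeAt D ψ P) (hψ : ‖ψ P.asIdeal‖ ^ 2 = (nP P : ℝ))
    (k : Type) [Field k] [Fintype k] [DecidableEq k] [Algebra (OO ⧸ P.asIdeal) k] (r : ℕ)
    (hr : Fintype.card k = nP P ^ r) :
    ((SK (rd P k D) : ℤ) : ℂ) = -(ψ P.asIdeal ^ r + (starRingEnd ℂ) (ψ P.asIdeal) ^ r) := by
  classical
  have hm : P.asIdeal.IsMaximal := P.isMaximal
  let _ : Field (OO ⧸ P.asIdeal) := Ideal.Quotient.field P.asIdeal
  have hfin : Finite (OO ⧸ P.asIdeal) := fin_res P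
  let _ : Fintype (OO ⧸ P.asIdeal) := Fintype.ofFinite _
  have hcF : Fintype.card (OO ⧸ P.asIdeal) = nP P := by
    unfold nP
    rw [Nat.card_eq_fintype_card]
  have n0 : ∀ x : OO, x ∣ 14 * D → Ideal.Quotient.mk P.asIdeal x ≠ 0 := by
    intro x hx h0
    rw [Ideal.Quotient.eq_zero_iff_mem] at h0
    obtain ⟨c, hc⟩ := hx
    apply hP
    rw [hc]
    exact P.asIdeal.mul_mem_right _ h0
  have f2 : (2 : OO ⧸ P.asIdeal) ≠ 0 := by
    have := n0 2 ⟨7 * D, by ring⟩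
    rwa [map_ofNat] at this
  have f7 : (7 : OO ⧸ P.asIdeal) ≠ 0 := by
    have := n0 7 ⟨2 * D, by ring⟩
    rwa [map_ofNat] at this
  have fD : Ideal.Quotient.mk P.asIdeal D ≠ 0 := n0 D ⟨14, by ring⟩
  have hF : ringChar (OO ⧸ P.asIdeal) ≠ 2 := by
    intro h0
    apply f2
    have := ringChar.spec (OO ⧸ P.asIdeal) 2
    rw [h0] at this
    exact_mod_cast this.2 dvd_rfl
  have h1 := SK_luc (F := OO ⧸ P.asIdeal) (k := k) f2 f7 fD
  have h2 := cnt_SK hF (Ideal.Quotient.mk P.asIdeal D)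
  unfold HeckeAt at hE
  rw [mK_map] at hE
  have h3 := congrArg (fun n : ℤ => (n : ℂ)) h2
  push_cast at h3
  rw [hE, ← Nat.card_eq_fintype_card] at h3
  have h4 : ψ P.asIdeal + (starRingEnd ℂ) (ψ P.asIdeal) =
      ((-SK (Ideal.Quotient.mk P.asIdeal D) : ℤ) : ℂ) := by
    push_cast
    linear_combination -h3
  have h5 : ψ P.asIdeal * (starRingEnd ℂ) (ψ P.asIdeal) = ((Fintype.card (OO ⧸ P.asIdeal) : ℤ) : ℂ) := by
    rw [Complex.mul_conj, Complex.normSq_eq_norm_sq, hψ, hcF]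
    push_cast
    rfl
  have hfr : Module.finrank (OO ⧸ P.asIdeal) k = r := by
    have h6 := Module.card_eq_pow_finrank (K := OO ⧸ P.asIdeal) (V := k)
    rw [hr, hcF] at h6
    exact (Nat.pow_right_injective (two_le_nP P) h6).symm
  have h6 : SK (rd P k D) = SK (algebraMap (OO ⧸ P.asIdeal) k (Ideal.Quotient.mk P.asIdeal D)) := rfl
  rw [h6, h1, hfr]
  push_cast
  rw [luc_eq h4 h5]

/-- the four eigenvalues -/
noncomputable def om4 (ψ ψ' : Ideal OO → ℂ) (P : HeightOneSpectrum OO) : Fin 4 → ℂ :=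
  ![nP P * ψ P.asIdeal, nP P * (starRingEnd ℂ) (ψ P.asIdeal), nP P * ψ' P.asIdeal,
    nP P * (starRingEnd ℂ) (ψ' P.asIdeal)]

theorem frobP {P : HeightOneSpectrum OO} {D D' m : OO} {ψ ψ' : Ideal OO → ℂ}
    {A B : Matrix (Fin 6) (Fin 6) OO} (hAB : IsPencil D D' m A B)
    (hP : 42 * (D * D' * m) ∉ P.asIdeal)
    (hE : HeckeAt D ψ P) (hψ : ‖ψ P.asIdeal‖ ^ 2 = (nP P : ℝ))
    (hE' : HeckeAt D' ψ' P) (hψ' : ‖ψ' P.asIdeal‖ ^ 2 = (nP P : ℝ)) :
    IsFrob A B P (om4 ψ ψ' P) := by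
  have n0 : ∀ x : OO, x ∣ 42 * (D * D' * m) → x ∉ P.asIdeal := by
    intro x hx h0
    obtain ⟨c, hc⟩ := hx
    apply hP
    rw [hc]
    exact P.asIdeal.mul_mem_right _ h0
  have hq0 : (0 : ℝ) < nP P := by
    have := two_le_nP P
    exact_mod_cast (by omega : 0 < nP P)
  have hs : ∀ a : ℝ, 0 ≤ a → a ^ 2 = (nP P : ℝ) → (nP P : ℝ) * a = (nP P : ℝ) ^ ((3 : ℝ) / 2) := by
    intro a ha h
    have e1 : a = Real.sqrt (nP P) := by rw [← h, Real.sqrt_sq ha]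
    rw [e1, Real.sqrt_eq_rpow, show ((3 : ℝ) / 2) = 1 + 1 / 2 by norm_num, Real.rpow_add hq0,
      Real.rpow_one]
  refine ⟨fun j => ?_, fun k _ _ _ r hr => ?_⟩
  · have h1 := hs _ (norm_nonneg _) hψ
    have h2 := hs _ (norm_nonneg _) hψ'
    fin_cases j <;>
      simp only [om4, Fin.mk_zero, Fin.mk_one, Fin.reduceFinMk, Matrix.cons_val_zero,
        Matrix.cons_val_one, Matrix.cons_val, norm_mul, Complex.norm_natCast, RCLike.norm_conj] <;>
      assumption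
  · classical
    have hm : P.asIdeal.IsMaximal := P.isMaximal
    have hinj : ∀ x : OO, x ∣ 42 * (D * D' * m) → rd P k x ≠ 0 := by
      intro x hx h0
      let _ : Field (OO ⧸ P.asIdeal) := Ideal.Quotient.field P.asIdeal
      have h1 : algebraMap (OO ⧸ P.asIdeal) k (Ideal.Quotient.mk P.asIdeal x) = 0 := h0
      have h2 := (map_eq_zero (algebraMap (OO ⧸ P.asIdeal) k)).1 h1
      rw [Ideal.Quotient.eq_zero_iff_mem] at h2
      exact n0 x hx h2
    have k2 : (2 : k) ≠ 0 := by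
      have := hinj 2 ⟨21 * (D * D' * m), by ring⟩
      rwa [map_ofNat] at this
    have k3 : (3 : k) ≠ 0 := by
      have := hinj 3 ⟨14 * (D * D' * m), by ring⟩
      rwa [map_ofNat] at this
    have k7 : (7 : k) ≠ 0 := by
      have := hinj 7 ⟨6 * (D * D' * m), by ring⟩
      rwa [map_ofNat] at this
    have h1 := hAB.numP (ok_map (rd P k) k2 k3 k7) (hinj D ⟨42 * (D' * m), by ring⟩)
      (hinj D' ⟨42 * (D * m), by ring⟩) (hinj m ⟨42 * (D * D'), by ring⟩)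
    have h2 := SK_ext (n0 (14 * D) ⟨3 * (D' * m), by ring⟩) hE hψ k r hr
    have h3 := SK_ext (n0 (14 * D') ⟨3 * (D * m), by ring⟩) hE' hψ' k r hr
    have h4 := congrArg (fun n : ℤ => (n : ℂ)) h1
    push_cast at h4
    rw [h2, h3, hr] at h4
    rw [h4]
    simp only [om4, Fin.sum_univ_four, Matrix.cons_val_zero, Matrix.cons_val_one, Matrix.cons_val]
    push_cast
    rw [mul_pow, mul_pow, mul_pow, mul_pow]
    ring

/-- the product of the Euler factors -/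
lemma om4_prod (ψ ψ' : Ideal OO → ℂ) (P : HeightOneSpectrum OO) (s : ℂ) :
    ∏ j, (1 - om4 ψ ψ' P j * (nP P : ℂ) ^ (-s))⁻¹ =
      ((1 - ψ P.asIdeal * (nP P : ℂ) ^ (-(s - 1)))⁻¹ *
        (1 - (starRingEnd ℂ) (ψ P.asIdeal) * (nP P : ℂ) ^ (-(s - 1)))⁻¹) *
      ((1 - ψ' P.asIdeal * (nP P : ℂ) ^ (-(s - 1)))⁻¹ *
        (1 - (starRingEnd ℂ) (ψ' P.asIdeal) * (nP P : ℂ) ^ (-(s - 1)))⁻¹) := by
  have hq0 : (nP P : ℂ) ≠ 0 := by
    have := two_le_nP P
    exact_mod_cast (by omega : nP P ≠ 0)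
  have e : (nP P : ℂ) ^ (-(s - 1)) = (nP P : ℂ) * (nP P : ℂ) ^ (-s) := by
    rw [show -(s - 1) = 1 + -s by ring, Complex.cpow_add _ _ hq0, Complex.cpow_one]
  rw [e]
  simp only [om4, Fin.prod_univ_four, Matrix.cons_val_zero, Matrix.cons_val_one, Matrix.cons_val]
  have r : ∀ a b : ℂ, a * (b * (nP P : ℂ) ^ (-s)) = 1 - (1 - b * a * (nP P : ℂ) ^ (-s)) := by
    intro a b
    ring
  rw [show (nP P : ℂ) * ψ P.asIdeal * (nP P : ℂ) ^ (-s) =
      ψ P.asIdeal * ((nP P : ℂ) * (nP P : ℂ) ^ (-s)) by ring,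
    show (nP P : ℂ) * (starRingEnd ℂ) (ψ P.asIdeal) * (nP P : ℂ) ^ (-s) =
      (starRingEnd ℂ) (ψ P.asIdeal) * ((nP P : ℂ) * (nP P : ℂ) ^ (-s)) by ring,
    show (nP P : ℂ) * ψ' P.asIdeal * (nP P : ℂ) ^ (-s) =
      ψ' P.asIdeal * ((nP P : ℂ) * (nP P : ℂ) ^ (-s)) by ring,
    show (nP P : ℂ) * (starRingEnd ℂ) (ψ' P.asIdeal) * (nP P : ℂ) ^ (-s) =
      (starRingEnd ℂ) (ψ' P.asIdeal) * ((nP P : ℂ) * (nP P : ℂ) ^ (-s)) by ring]
  ring

/-! ### removing Euler factors -/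

open scoped Classical in
/-- the product of a function over a set of primes, without finitely many primes -/
theorem remove {a : HeightOneSpectrum OO → ℂ} (ha : ∀ P, ‖a P‖ ^ 2 ≤ (nP P : ℝ))
    (S : Finset (HeightOneSpectrum OO)) {L : ℂ → ℂ} (h1 : Differentiable ℂ L)
    (h2 : ∀ s : ℂ, 3 / 2 < s.re → HasProd (fun P : HeightOneSpectrum OO =>
      (1 - a P * (nP P : ℂ) ^ (-s))⁻¹) (L s)) (h3 : L 1 ≠ 0) :
    ∃ M : ℂ → ℂ, Differentiable ℂ M ∧ (∀ s : ℂ, 3 / 2 < s.re →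
      HasProd (fun P : HeightOneSpectrum OO => if P ∈ S then 1 else
        (1 - a P * (nP P : ℂ) ^ (-s))⁻¹) (M s)) ∧ M 1 ≠ 0 := by
  have hq2 : ∀ P : HeightOneSpectrum OO, (2 : ℝ) ≤ nP P := fun P => by
    exact_mod_cast two_le_nP P
  have hq0 : ∀ P : HeightOneSpectrum OO, (nP P : ℂ) ≠ 0 := fun P => by
    have := two_le_nP P
    exact_mod_cast (by omega : nP P ≠ 0)
  have hne : ∀ (P : HeightOneSpectrum OO) (s : ℂ), 1 ≤ s.re → 1 - a P * (nP P : ℂ) ^ (-s) ≠ 0 := by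
    intro P s hs h0
    have e1 : a P * (nP P : ℂ) ^ (-s) = 1 := by linear_combination -h0
    have e2 : ‖a P‖ * (nP P : ℝ) ^ (-s.re) = 1 := by
      have := congrArg norm e1
      rw [norm_mul, norm_one, Complex.norm_natCast_cpow_of_pos (by
        have := two_le_nP P; omega), Complex.neg_re] at this
      exact this
    have q0 : (0 : ℝ) < nP P := by have := hq2 P; linarith
    have e3 : (nP P : ℝ) ^ (-s.re) ≤ (nP P : ℝ)⁻¹ := by
      rw [← Real.rpow_neg_one]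
      exact Real.rpow_le_rpow_of_exponent_le (by have := hq2 P; linarith) (by linarith)
    have e4 : 1 ≤ ‖a P‖ * (nP P : ℝ)⁻¹ := by
      rw [← e2]
      exact mul_le_mul_of_nonneg_left e3 (norm_nonneg _)
    have e5 : (nP P : ℝ) ≤ ‖a P‖ := by
      have := mul_le_mul_of_nonneg_right e4 q0.le
      rwa [one_mul, mul_assoc, inv_mul_cancel₀ q0.ne', mul_one] at this
    have e6 := ha P
    have e7 : (nP P : ℝ) ^ 2 ≤ (nP P : ℝ) := by
      calc (nP P : ℝ) ^ 2 ≤ ‖a P‖ ^ 2 := pow_le_pow_left₀ q0.le e5 2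
        _ ≤ _ := e6
    nlinarith [hq2 P]
  refine ⟨fun s => L s * ∏ P ∈ S, (1 - a P * (nP P : ℂ) ^ (-s)), ?_, ?_, ?_⟩
  · refine h1.mul (Differentiable.fun_finsetProd fun P _ => ?_)
    refine (differentiable_const _).sub ((differentiable_const _).mul ?_)
    exact (differentiable_id.neg).const_cpow (Or.inl (hq0 P))
  · intro s hs
    have h4 : HasProd (fun P => if P ∈ S then (1 - a P * (nP P : ℂ) ^ (-s)) else 1)
        (∏ P ∈ S, (1 - a P * (nP P : ℂ) ^ (-s))) := by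
      have h5 : HasProd (fun P => if P ∈ S then (1 - a P * (nP P : ℂ) ^ (-s)) else 1)
          (∏ P ∈ S, if P ∈ S then (1 - a P * (nP P : ℂ) ^ (-s)) else 1) :=
        hasProd_prod_of_ne_finset_one (fun P hP => if_neg hP)
      have h6 : ∏ P ∈ S, (if P ∈ S then (1 - a P * (nP P : ℂ) ^ (-s)) else 1) =
          ∏ P ∈ S, (1 - a P * (nP P : ℂ) ^ (-s)) :=
        Finset.prod_congr rfl fun P hP => if_pos hP
      rw [h6] at h5
      exact h5
    refine (congrArg (fun g => HasProd g (L s * ∏ P ∈ S, (1 - a P * (nP P : ℂ) ^ (-s))))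
      (funext fun P => ?_)).mp ((h2 s hs).mul h4)
    by_cases hP : P ∈ S
    · rw [if_pos hP, if_pos hP, inv_mul_cancel₀ (hne P s (by linarith))]
    · rw [if_neg hP, if_neg hP, mul_one]
  · refine mul_ne_zero h3 (Finset.prod_ne_zero_iff.2 fun P _ => ?_)
    exact hne P 1 (by norm_num)

/-! ### the `L`-function -/

/-- the primes dividing a nonzero element -/
theorem finite_primes {M : OO} (hM : M ≠ 0) : {P : HeightOneSpectrum OO | M ∈ P.asIdeal}.Finite := by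
  have h0 : Ideal.span {M} ≠ 0 := by
    rw [Ne, Ideal.zero_eq_bot, Ideal.span_singleton_eq_bot]
    exact hM
  refine (Ideal.finite_factors h0).subset fun v hv => ?_
  simp only [Set.mem_ofPred_eq] at hv ⊢
  rw [Ideal.dvd_span_singleton]
  exact hv

open Pool.Agent.N843.K (FO coreK)

lemma hecke_of {D : OO} (hD : FO D) {z : ℂ} (hz : z ^ 2 = z - 2) : ∃ ψ : Ideal OO → ℂ, PsiK 1 D z ψ ∧
    (∀ P : HeightOneSpectrum OO, 14 * D ∉ P.asIdeal → HeckeAt D ψ P) ∧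
    (∃ L : ℂ → ℂ, Differentiable ℂ L ∧ (∀ s : ℂ, 3 / 2 < s.re →
      HasProd (fun P : HeightOneSpectrum OO => (1 - ψ P.asIdeal * (nP P : ℂ) ^ (-s))⁻¹) (L s)) ∧
      L 1 ≠ 0) ∧
    (∃ L : ℂ → ℂ, Differentiable ℂ L ∧ (∀ s : ℂ, 3 / 2 < s.re →
      HasProd (fun P : HeightOneSpectrum OO =>
        (1 - (starRingEnd ℂ) (ψ P.asIdeal) * (nP P : ℂ) ^ (-s))⁻¹) (L s)) ∧ L 1 ≠ 0) := by
  obtain ⟨ψ, h1, h2, h3⟩ := coreK hD (Or.inl rfl) hz
  have e1 : (((1 : ℤ) : OO) * D) = D := by rw [Int.cast_one, one_mul]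
  rw [e1] at h2
  obtain ⟨⟨L, a1, a2, a3⟩, ⟨L', b1, b2, b3⟩⟩ := h3 1 one_pos (Or.inl ⟨rfl, odd_one⟩)
  refine ⟨ψ, h1, h2, ⟨L, a1, fun s hs => ?_, a3⟩, ⟨L', b1, fun s hs => ?_, b3⟩⟩
  · have h4 := a2 s hs
    unfold nP
    simpa only [zpow_one, sub_self, zpow_zero, mul_one] using h4
  · have h4 := b2 s hs
    unfold nP
    simpa only [sub_self, zpow_zero, sub_zero, zpow_one, one_mul] using h4

open scoped Classical in
/-- **the `L`-function of the third cohomology** -/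
theorem main {D D' m : OO} (hD : FO D) (hD' : FO D') (h0 : D ≠ 0) (h0' : D' ≠ 0) (hm : m ≠ 0)
    {A B : Matrix (Fin 6) (Fin 6) OO} (hAB : IsPencil D D' m A B) :
    ∃ ω : HeightOneSpectrum OO → Fin 4 → ℂ,
      (∀ P, 42 * (D * D' * m) ∉ P.asIdeal → IsFrob A B P (ω P)) ∧
      ∃ L : ℂ → ℂ, Differentiable ℂ L ∧
        (∀ s : ℂ, (5 : ℝ) / 2 < s.re →
          HasProd (fun P : HeightOneSpectrum OO =>
            if 42 * (D * D' * m) ∈ P.asIdeal then 1 else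
            ∏ j, (1 - ω P j * (nP P : ℂ) ^ (-s))⁻¹) (L s)) ∧ L 2 ≠ 0 := by
  have hz := Pool.Agent.Y698.al_sq
  obtain ⟨ψ, p1, p2, ⟨L1, a1, a2, a3⟩, ⟨L2, b1, b2, b3⟩⟩ := hecke_of hD hz
  obtain ⟨ψ', q1, q2, ⟨L3, c1, c2, c3⟩, ⟨L4, d1, d2, d3⟩⟩ := hecke_of hD' hz
  have h42 : (42 : OO) ≠ 0 := by norm_num
  have hM : 42 * (D * D' * m) ≠ 0 := mul_ne_zero h42 (mul_ne_zero (mul_ne_zero h0 h0') hm)
  set S : Finset (HeightOneSpectrum OO) := (finite_primes hM).toFinset with hS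
  have hmem : ∀ P, P ∈ S ↔ 42 * (D * D' * m) ∈ P.asIdeal := fun P => by rw [hS]; simp
  have n1 : ∀ P : HeightOneSpectrum OO, ‖ψ P.asIdeal‖ ^ 2 ≤ (nP P : ℝ) := fun P => psi_le p1 hz P
  have n2 : ∀ P : HeightOneSpectrum OO, ‖ψ' P.asIdeal‖ ^ 2 ≤ (nP P : ℝ) := fun P => psi_le q1 hz P
  obtain ⟨M1, a4, a5, a6⟩ := remove n1 S a1 a2 a3
  obtain ⟨M2, b4, b5, b6⟩ := remove (a := fun P => (starRingEnd ℂ) (ψ P.asIdeal))
    (fun P => by rw [RCLike.norm_conj]; exact n1 P) S b1 b2 b3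
  obtain ⟨M3, c4, c5, c6⟩ := remove n2 S c1 c2 c3
  obtain ⟨M4, d4, d5, d6⟩ := remove (a := fun P => (starRingEnd ℂ) (ψ' P.asIdeal))
    (fun P => by rw [RCLike.norm_conj]; exact n2 P) S d1 d2 d3
  refine ⟨om4 ψ ψ', fun P hP => ?_, fun s => (M1 (s - 1) * M2 (s - 1)) * (M3 (s - 1) * M4 (s - 1)),
    ?_, fun s hs => ?_, ?_⟩
  · have g1 : 14 * D ∉ P.asIdeal := fun h => hP (by
      rw [show 42 * (D * D' * m) = 14 * D * (3 * D' * m) by ring]
      exact P.asIdeal.mul_mem_right _ h)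
    have g2 : 14 * D' ∉ P.asIdeal := fun h => hP (by
      rw [show 42 * (D * D' * m) = 14 * D' * (3 * D * m) by ring]
      exact P.asIdeal.mul_mem_right _ h)
    exact frobP hAB hP (p2 P g1) (psi_eq p1 hz P g1) (q2 P g2) (psi_eq q1 hz P g2)
  · exact ((a4.comp (differentiable_id.sub_const 1)).mul (b4.comp (differentiable_id.sub_const 1))).mul
      ((c4.comp (differentiable_id.sub_const 1)).mul (d4.comp (differentiable_id.sub_const 1)))
  · have hs1 : (3 : ℝ) / 2 < (s - 1).re := by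
      rw [Complex.sub_re, Complex.one_re]
      linarith
    have h1 := ((a5 _ hs1).mul (b5 _ hs1)).mul ((c5 _ hs1).mul (d5 _ hs1))
    refine (congrArg (fun g => HasProd g _) (funext fun P => ?_)).mp h1
    by_cases hP : 42 * (D * D' * m) ∈ P.asIdeal
    · have hP' := (hmem P).2 hP
      simp only [if_pos hP, if_pos hP', mul_one]
    · have hP' : P ∉ S := fun h => hP ((hmem P).1 h)
      simp only [if_neg hP, if_neg hP']
      rw [om4_prod]
  · have e : (2 : ℂ) - 1 = 1 := by norm_num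
    simp only [e]
    exact mul_ne_zero (mul_ne_zero a6 b6) (mul_ne_zero c6 d6)

end Pool.Agent.N843.BB
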