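import Pool.Agent.N843.BB.Cnt
import Pool.Agent.N843.CK.Eu

/-!
# The pencils of quadrics over `ℤ[ω]`
-/

set_option autoImplicit false
set_option linter.unusedSectionVars false

namespace Pool.Agent.N843.BB

open Finset Matrix Polynomial
open Pool.Agent.N844.QP (chi_sq sum_sq sum_lin sum_inv dp dp_eval dp_coeff dp_map count_sym qf qf_smul
  proj_card)
open scoped LinearAlgebra.Projectivization
open Pool.Agent.R384 (OO om)

/-- the pencils of quadrics in `P⁵` with the given discriminant curve -/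
structure IsPencil (D D' m : OO) (A B : Matrix (Fin 6) (Fin 6) OO) : Prop where
  symA : A.IsSymm
  symB : B.IsSymm
  disc : ∀ x : OO, -(x • A - B).det = (9 + 3 * om) * D * m ^ 2 * ((D * D' * x ^ 2 - 1) *
    (D * D' * x ^ 2 + om ^ 4) * (D * D' * x ^ 2 - om ^ 8))

lemma om_sq : om ^ 2 = om - 2 := by
  linear_combination -Pool.Agent.R384.om_mul

instance inf_OO : Infinite OO := Infinite.of_injective (fun n : ℤ => (⟨n, 0⟩ : OO)) (by
  intro a b h
  exact congrArg QuadraticAlgebra.re h)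

variable {D D' m : OO} {A B : Matrix (Fin 6) (Fin 6) OO}

lemma IsPencil.dp_eq (h : IsPencil D D' m A B) :
    dp A B = dsc om ((9 + 3 * om) * D * m ^ 2) (D * D') := by
  apply Polynomial.funext
  intro x
  rw [dp_eval, dsc_eval]
  linear_combination - h.disc x

section field

variable {k : Type*} [Field k] (φ : OO →+* k)

lemma ok_map (h2 : (2 : k) ≠ 0) (h3 : (3 : k) ≠ 0) (h7 : (7 : k) ≠ 0) : Ok (φ om) := by
  refine ⟨?_, h2, h3, h7⟩
  rw [← map_pow, om_sq, map_sub, map_ofNat]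

lemma IsPencil.dpk (h : IsPencil D D' m A B) :
    dp (A.map φ) (B.map φ) = dsc (φ om) ((9 + 3 * φ om) * φ D * φ m ^ 2) (φ D * φ D') := by
  rw [dp_map, h.dp_eq, dsc_map]
  simp only [map_mul, map_add, map_pow, map_ofNat]

lemma IsPencil.detk (h : IsPencil D D' m A B) :
    (A.map φ).det = -((9 + 3 * φ om) * φ D * φ m ^ 2) * (φ D * φ D') ^ 3 := by
  rw [← dp_coeff (A.map φ) (B.map φ), h.dpk φ, dsc_coeff]

lemma IsPencil.symk (h : IsPencil D D' m A B) : (A.map φ).IsSymm ∧ (B.map φ).IsSymm :=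
  ⟨h.symA.map _, h.symB.map _⟩

variable {φ}

/-- smoothness -/
theorem IsPencil.smooth (h : IsPencil D D' m A B) (hok : Ok (φ om)) (hn : φ D ≠ 0) (hn' : φ D' ≠ 0)
    (hm : φ m ≠ 0) {y : Fin 6 → k} (hy : y ≠ 0) (h6 : qf (A.map φ) y = 0)
    (h7 : qf (B.map φ) y = 0) :
    LinearIndependent k ![A.map φ *ᵥ y, B.map φ *ᵥ y] := by
  have hc : (9 + 3 * φ om) * φ D * φ m ^ 2 ≠ 0 :=
    mul_ne_zero (mul_ne_zero hok.c0 hn) (pow_ne_zero _ hm)
  have hd : φ D * φ D' ≠ 0 := mul_ne_zero hn hn'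
  refine Pool.Agent.N844.QP.smooth (h.symk φ).1 (h.symk φ).2 ?_ ?_ hy h6 h7
  · rw [h.detk φ]
    exact mul_ne_zero (neg_ne_zero.2 hc) (pow_ne_zero _ hd)
  · intro x hx
    rw [h.dpk φ] at hx ⊢
    exact dsc_simple hok hc hd x hx

/-- the number of points -/
theorem IsPencil.numP [Fintype k] [DecidableEq k] (h : IsPencil D D' m A B) (hok : Ok (φ om))
    (hn : φ D ≠ 0) (hn' : φ D' ≠ 0) (hm : φ m ≠ 0) :
    (Pool.Agent.N844.QP.numP (A.map φ) (B.map φ) : ℤ) =
      1 + Fintype.card k + (Fintype.card k : ℤ) ^ 2 + (Fintype.card k : ℤ) ^ 3 +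
        Fintype.card k * (SK (φ D) + SK (φ D')) := by
  classical
  have hc : (9 + 3 * φ om) * φ D * φ m ^ 2 ≠ 0 :=
    mul_ne_zero (mul_ne_zero hok.c0 hn) (pow_ne_zero _ hm)
  have hd : φ D * φ D' ≠ 0 := mul_ne_zero hn hn'
  have hk : ringChar k ≠ 2 := by
    intro h0
    apply hok.h2
    have := ringChar.spec k 2
    rw [h0] at this
    exact_mod_cast this.2 dvd_rfl
  have hAB1 := h.dpk φ
  have hAB2 := h.detk φ
  have hsym := h.symk φ
  generalize A.map φ = Ak at hAB1 hAB2 hsym ⊢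
  generalize B.map φ = Bk at hAB1 hAB2 hsym ⊢
  have hA0 : Ak.det ≠ 0 := by
    rw [hAB2]
    exact mul_ne_zero (neg_ne_zero.2 hc) (pow_ne_zero _ hd)
  have hcount := count_sym hk 1 Ak Bk hsym.1 hsym.2 hA0 (by
    intro x hx
    rw [hAB1] at hx ⊢
    exact dsc_simple hok hc hd x hx)
  have hs : (∑ x : k, quadraticChar k ((-1) ^ (1 + 2) * (dp Ak Bk).eval x) +
      quadraticChar k ((-1) ^ (1 + 2) * Ak.det)) = SK (φ D) + SK (φ D') := by
    have e1 : ∀ x : k, quadraticChar k ((-1) ^ (1 + 2) * (dp Ak Bk).eval x) =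
        quadraticChar k ((9 + 3 * φ om) * φ D * gg (φ om) (φ D * φ D') x) := by
      intro x
      rw [hAB1, dsc_eval, ← chi_sq hm ((9 + 3 * φ om) * φ D * gg (φ om) (φ D * φ D') x)]
      congr 1
      unfold gg
      ring
    have e2 : quadraticChar k ((-1) ^ (1 + 2) * Ak.det) =
        quadraticChar k ((9 + 3 * φ om) * (φ D * (φ D * φ D'))) := by
      have hz : φ m * (φ D * φ D') ≠ 0 := mul_ne_zero hm hd
      rw [hAB2, ← chi_sq hz ((9 + 3 * φ om) * (φ D * (φ D * φ D')))]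
      congr 1
      ring
    simp_rw [e1]
    rw [e2, sum_gg hk hok hn hd]
    congr 1
    rw [show φ D * (φ D * φ D') = φ D ^ 2 * φ D' by ring, SK_sq hn]
  rw [hs] at hcount
  have e2 : ((univ.filter fun y : Fin 6 → k => qf Bk y = 0 ∧ qf Ak y = 0).card : ℤ) =
      (Nat.card {v : Fin 6 → k // v ≠ 0 ∧ (qf Ak v = 0 ∧ qf Bk v = 0)} : ℤ) + 1 := by
    have e4 : (univ.filter fun y : Fin 6 → k => qf Bk y = 0 ∧ qf Ak y = 0) =
        insert 0 (univ.filter fun y : Fin 6 → k => y ≠ 0 ∧ (qf Ak y = 0 ∧ qf Bk y = 0)) := by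
      ext y
      simp only [Finset.mem_filter, Finset.mem_univ, true_and, Finset.mem_insert]
      by_cases hy : y = 0
      · subst hy
        simp [qf]
      · simp [hy, and_comm]
    rw [e4, Finset.card_insert_of_notMem (by simp)]
    push_cast
    congr 2
    rw [Nat.card_eq_fintype_card, Fintype.card_subtype]
  have hcone : ∀ (c : kˣ) (v : Fin 6 → k), (qf Ak (c • v) = 0 ∧ qf Bk (c • v) = 0) ↔
      (qf Ak v = 0 ∧ qf Bk v = 0) := by
    intro c v
    rw [Units.smul_def, qf_smul, qf_smul]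
    have hc0 : (c : k) ^ 2 ≠ 0 := pow_ne_zero 2 c.ne_zero
    simp [hc0]
  have hcount' : ((univ.filter fun y : Fin 6 → k => qf Bk y = 0 ∧ qf Ak y = 0).card : ℤ) =
      (Fintype.card k : ℤ) ^ 4 + (Fintype.card k : ℤ) * ((Fintype.card k : ℤ) - 1) *
        (SK (φ D) + SK (φ D')) := by
    have := hcount
    rw [pow_one] at this
    exact this
  rw [e2, proj_card (k := k) (fun v => qf Ak v = 0 ∧ qf Bk v = 0) hcone] at hcount'
  have hq : 1 < Fintype.card k := Fintype.one_lt_card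
  have hq1 : ((Fintype.card k : ℤ) - 1) ≠ 0 := by
    have : (1 : ℤ) < Fintype.card k := by exact_mod_cast hq
    omega
  push_cast [Nat.cast_sub hq.le] at hcount'
  apply mul_left_cancel₀ hq1
  unfold Pool.Agent.N844.QP.numP
  linear_combination hcount'

end field

end Pool.Agent.N843.BB
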